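import Pool.Agent.H586.AF.A

/-!
# Project AF (helper586), task AF-D: the `l¹` norm of the gradient of the periodic heat kernel

The kernel decreases on `0, ..., L` (lazy random walk: the coefficients `vv L m z` decrease in `z`, by
induction on `m`), so the sum telescopes to at most `4 (r 0 - r L)`, and
`r 0 - r L ≤ (1/L) ∑_(0 < n < 2L) exp (-t ek φ_n)` is compared with the Gauss integral.
-/

set_option autoImplicit false

open MeasureTheory Finset Filter Topology

namespace Pool.Agent.H663.AF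

open Pool.Agent.H586.AF

/-- the coefficients of the lazy walk -/
noncomputable def vv (L m : ℕ) (z : ℤ) : ℝ :=
  ∑ n ∈ Finset.range (2 * L), (2 + 2 * Real.cos (Real.pi * n / L)) ^ m *
    Real.cos (Real.pi * n / L * z)

theorem vv_succ (L m : ℕ) (z : ℤ) :
    vv L (m + 1) z = 2 * vv L m z + vv L m (z + 1) + vv L m (z - 1) := by
  unfold vv
  rw [Finset.mul_sum, ← Finset.sum_add_distrib, ← Finset.sum_add_distrib]
  refine Finset.sum_congr rfl fun n _ => ?_
  obtain ⟨x, hx⟩ : ∃ x : ℝ, x = Real.pi * n / L := ⟨_, rfl⟩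
  rw [← hx]
  push_cast
  have h1 : x * ((z : ℝ) + 1) = x * z + x := by ring
  have h2 : x * ((z : ℝ) - 1) = x * z - x := by ring
  rw [h1, h2, Real.cos_add, Real.cos_sub, pow_succ]
  ring

theorem cos_neg_int (x : ℝ) (z : ℤ) : Real.cos (x * ((-z : ℤ) : ℝ)) = Real.cos (x * z) := by
  push_cast
  rw [mul_neg, Real.cos_neg]

theorem cos_refl {L : ℕ} (hL : 0 < L) (n : ℕ) :
    Real.cos (Real.pi * n / L * (((L : ℤ) + 1 : ℤ) : ℝ)) =
      Real.cos (Real.pi * n / L * (((L : ℤ) - 1 : ℤ) : ℝ)) := by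
  have hL0 : (L : ℝ) ≠ 0 := by exact_mod_cast hL.ne'
  have h1 : Real.pi * n / L * (((L : ℤ) + 1 : ℤ) : ℝ) = n * Real.pi + Real.pi * n / L := by
    push_cast
    field_simp
  have h2 : Real.pi * n / L * (((L : ℤ) - 1 : ℤ) : ℝ) = n * Real.pi - Real.pi * n / L := by
    push_cast
    field_simp
  rw [h1, h2, Real.cos_add, Real.cos_sub, Real.sin_nat_mul_pi]
  ring

theorem vv_neg (L m : ℕ) (z : ℤ) : vv L m (-z) = vv L m z := by
  unfold vv
  refine Finset.sum_congr rfl fun n _ => ?_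
  rw [cos_neg_int]

theorem vv_refl {L : ℕ} (hL : 0 < L) (m : ℕ) : vv L m ((L : ℤ) + 1) = vv L m ((L : ℤ) - 1) := by
  unfold vv
  refine Finset.sum_congr rfl fun n _ => ?_
  rw [cos_refl hL]

theorem cos_sum (θ : ℝ) (N : ℕ) : 2 * Real.sin (θ / 2) * ∑ n ∈ Finset.range N, Real.cos (n * θ) =
    Real.sin ((N : ℝ) * θ - θ / 2) + Real.sin (θ / 2) := by
  induction N with
  | zero =>
    rw [Finset.sum_range_zero, Nat.cast_zero, zero_mul, zero_sub, Real.sin_neg]
    ring
  | succ N ih =>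
    rw [Finset.sum_range_succ, mul_add, ih]
    have h1 : ((N + 1 : ℕ) : ℝ) * θ - θ / 2 = N * θ + θ / 2 := by
      push_cast
      ring
    rw [h1, Real.sin_add, Real.sin_sub]
    ring

theorem vv_zero {L : ℕ} (w : ℤ) (h1 : 1 ≤ w) (h2 : w ≤ L) : vv L 0 w = 0 := by
  have hw1 : (1 : ℝ) ≤ w := by exact_mod_cast h1
  have hw2 : (w : ℝ) ≤ L := by exact_mod_cast h2
  have hL0 : (0 : ℝ) < L := by linarith
  obtain ⟨θ, hθ⟩ : ∃ θ : ℝ, θ = Real.pi * w / L := ⟨_, rfl⟩
  have h3 := cos_sum θ (2 * L)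
  have h4 : vv L 0 w = ∑ n ∈ Finset.range (2 * L), Real.cos (n * θ) := by
    unfold vv
    refine Finset.sum_congr rfl fun n _ => ?_
    rw [pow_zero, one_mul, hθ]
    congr 1
    ring
  have hπ := Real.pi_pos
  have h5 : ((2 * L : ℕ) : ℝ) * θ - θ / 2 = -(θ / 2) + w * (2 * Real.pi) := by
    rw [hθ]
    push_cast
    field_simp
    ring
  have h6 : Real.sin (((2 * L : ℕ) : ℝ) * θ - θ / 2) = -Real.sin (θ / 2) := by
    rw [h5, Real.sin_add_int_mul_two_pi, Real.sin_neg]
  rw [h6] at h3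
  have h7 : 0 < Real.sin (θ / 2) := by
    apply Real.sin_pos_of_pos_of_lt_pi
    · rw [hθ]
      positivity
    · have : θ ≤ Real.pi := by
        rw [hθ, div_le_iff₀ hL0]
        exact mul_le_mul_of_nonneg_left hw2 hπ.le
      linarith
  rw [h4]
  have h8 : 2 * Real.sin (θ / 2) * ∑ n ∈ Finset.range (2 * L), Real.cos (n * θ) = 0 := by
    rw [h3]
    ring
  rcases mul_eq_zero.1 h8 with h9 | h9
  · exact absurd h9 (by positivity)
  · exact h9

theorem vv_mono {L : ℕ} (hL : 2 ≤ L) (m : ℕ) :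
    ∀ z : ℤ, 0 ≤ z → z + 1 ≤ L → vv L m (z + 1) ≤ vv L m z := by
  induction m with
  | zero =>
    intro z h0 h1
    rw [vv_zero (z + 1) (by omega) h1]
    rcases h0.eq_or_lt with h2 | h2
    · subst h2
      unfold vv
      apply Finset.sum_nonneg
      intro n _
      rw [pow_zero, one_mul, Int.cast_zero, mul_zero, Real.cos_zero]
      exact zero_le_one
    · rw [vv_zero z (by omega) (by omega)]
  | succ m ih =>
    intro z h0 h1
    rw [vv_succ, vv_succ]
    have e1 : z + 1 - 1 = z := by ring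
    rw [e1]
    have i1 := ih z h0 h1
    rcases h0.eq_or_lt with h2 | h2
    · subst h2
      have i2 := ih 1 (by norm_num) (by omega)
      have i3 : vv L m (0 - 1) = vv L m 1 := by
        rw [zero_sub, vv_neg]
      rw [i3]
      rw [zero_add] at i1 ⊢
      linarith
    · have i2 := ih (z - 1) (by omega) (by omega)
      rw [sub_add_cancel] at i2
      rcases h1.eq_or_lt with h3 | h3
      · have i3 : vv L m (z + 1 + 1) = vv L m z := by
          have h4 : z + 1 + 1 = (L : ℤ) + 1 := by omega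
          rw [h4, vv_refl (by omega)]
          congr 1
          omega
        rw [i3]
        linarith
      · have i3 := ih (z + 1) (by omega) (by omega)
        linarith

/-- exponential series -/
theorem rr_hasSum (L : ℕ) (t : ℝ) (z : ℤ) :
    HasSum (fun m : ℕ => Real.exp (-4 * t) * (t ^ m / m.factorial * vv L m z))
      (∑ n ∈ Finset.range (2 * L),
        Real.exp (-t * ek (Real.pi * n / L)) * Real.cos (Real.pi * n / L * z)) := by
  have h1 : ∀ n ∈ Finset.range (2 * L), HasSum (fun m : ℕ => Real.exp (-4 * t) *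
      ((t * (2 + 2 * Real.cos (Real.pi * n / L))) ^ m / m.factorial *
        Real.cos (Real.pi * n / L * z)))
      (Real.exp (-t * ek (Real.pi * n / L)) * Real.cos (Real.pi * n / L * z)) := by
    intro n _
    have h2 : HasSum (fun m : ℕ => (t * (2 + 2 * Real.cos (Real.pi * n / L))) ^ m / m.factorial)
        (Real.exp (t * (2 + 2 * Real.cos (Real.pi * n / L)))) := by
      have h3 := NormedSpace.expSeries_div_hasSum_exp (t * (2 + 2 * Real.cos (Real.pi * n / L)))
      rwa [← Real.exp_eq_exp_ℝ] at h3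
    have h3 := (h2.mul_right (Real.cos (Real.pi * n / L * z))).mul_left (Real.exp (-4 * t))
    have h4 : Real.exp (-t * ek (Real.pi * n / L)) * Real.cos (Real.pi * n / L * z) =
        Real.exp (-4 * t) * (Real.exp (t * (2 + 2 * Real.cos (Real.pi * n / L))) *
          Real.cos (Real.pi * n / L * z)) := by
      rw [← mul_assoc, ← Real.exp_add]
      congr 2
      unfold ek
      ring
    rw [h4]
    exact h3
  have h2 := hasSum_sum h1
  have h3 : (fun m : ℕ => Real.exp (-4 * t) * (t ^ m / m.factorial * vv L m z)) =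
      fun m : ℕ => ∑ n ∈ Finset.range (2 * L), Real.exp (-4 * t) *
      ((t * (2 + 2 * Real.cos (Real.pi * n / L))) ^ m / m.factorial *
        Real.cos (Real.pi * n / L * z)) := by
    funext m
    unfold vv
    rw [Finset.mul_sum, Finset.mul_sum]
    refine Finset.sum_congr rfl fun n _ => ?_
    rw [mul_pow]
    ring
  rw [h3]
  exact h2

theorem rr_neg (L : ℕ) (t : ℝ) (z : ℤ) : rr L t (-z) = rr L t z := by
  unfold rr
  congr 1
  refine Finset.sum_congr rfl fun n _ => ?_
  rw [cos_neg_int]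

theorem rr_refl {L : ℕ} (hL : 0 < L) (t : ℝ) : rr L t ((L : ℤ) + 1) = rr L t ((L : ℤ) - 1) := by
  unfold rr
  congr 1
  refine Finset.sum_congr rfl fun n _ => ?_
  rw [cos_refl hL]

theorem rr_mono {L : ℕ} (hL : 2 ≤ L) {t : ℝ} (ht : 0 ≤ t) (z : ℤ) (h0 : 0 ≤ z)
    (h1 : z + 1 ≤ L) : rr L t (z + 1) ≤ rr L t z := by
  unfold rr
  apply mul_le_mul_of_nonneg_left _ (by positivity)
  refine hasSum_le (fun m => ?_) (rr_hasSum L t (z + 1)) (rr_hasSum L t z)
  apply mul_le_mul_of_nonneg_left _ (Real.exp_pos _).le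
  exact mul_le_mul_of_nonneg_left (vv_mono hL m z h0 h1) (by positivity)

/-- the difference of the extreme values -/
theorem rr_diff {L : ℕ} (hL : 2 ≤ L) (t : ℝ) : rr L t 0 - rr L t L =
    (1 / (2 * (L : ℝ))) * ∑ n ∈ Finset.range (2 * L),
      Real.exp (-t * ek (Real.pi * n / L)) * (1 - Real.cos (n * Real.pi)) := by
  have hL0 : (L : ℝ) ≠ 0 := by
    have : L ≠ 0 := by omega
    exact_mod_cast this
  unfold rr
  rw [← mul_sub, ← Finset.sum_sub_distrib]
  congr 1
  refine Finset.sum_congr rfl fun n _ => ?_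
  have h1 : Real.pi * n / L * ((0 : ℤ) : ℝ) = 0 := by
    push_cast
    ring
  have h2 : Real.pi * n / L * (((L : ℕ) : ℤ) : ℝ) = n * Real.pi := by
    push_cast
    field_simp
  rw [h1, h2, Real.cos_zero]
  ring

/-- lower bound for the symbol -/
theorem ek_ge {L : ℕ} (hL : 2 ≤ L) {m : ℝ} (h0 : 0 ≤ m) (h1 : m ≤ L) :
    4 * (m / L) ^ 2 ≤ ek (Real.pi * m / L) := by
  have hL0 : (0 : ℝ) < L := by
    have : 0 < L := by omega
    exact_mod_cast this
  have hπ := Real.pi_pos
  have h2 : ek (Real.pi * m / L) = 4 * Real.sin (Real.pi * m / L / 2) ^ 2 := by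
    unfold ek
    have h3 : Real.cos (Real.pi * m / L) = 1 - 2 * Real.sin (Real.pi * m / L / 2) ^ 2 := by
      have h4 := Real.cos_two_mul (Real.pi * m / L / 2)
      have h5 : 2 * (Real.pi * m / L / 2) = Real.pi * m / L := by ring
      rw [h5] at h4
      have h6 := Real.sin_sq_add_cos_sq (Real.pi * m / L / 2)
      rw [h4]
      linarith
    rw [h3]
    ring
  have h3 : m / L ≤ Real.sin (Real.pi * m / L / 2) := by
    have h4 : 0 ≤ Real.pi * m / L / 2 := by positivity
    have h5 : Real.pi * m / L / 2 ≤ Real.pi / 2 := by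
      have : Real.pi * m / L ≤ Real.pi := by
        rw [div_le_iff₀ hL0]
        exact mul_le_mul_of_nonneg_left h1 hπ.le
      linarith
    have h6 := Real.mul_le_sin h4 h5
    have h7 : 2 / Real.pi * (Real.pi * m / L / 2) = m / L := by
      field_simp
    rwa [h7] at h6
  have h4 : 0 ≤ m / L := by positivity
  rw [h2]
  have h5 : (m / L) ^ 2 ≤ Real.sin (Real.pi * m / L / 2) ^ 2 := pow_le_pow_left₀ h4 h3 2
  linarith

/-- the Gauss sum -/
theorem gauss_sum {b : ℝ} (hb : 0 < b) (L : ℕ) :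
    ∑ i ∈ Finset.range L, Real.exp (-b * ((i + 1 : ℕ) : ℝ) ^ 2) ≤ Real.sqrt (Real.pi / b) / 2 := by
  have h1 : AntitoneOn (fun x : ℝ => Real.exp (-b * x ^ 2)) (Set.Icc 0 (0 + (L : ℕ))) := by
    intro x hx y _ hxy
    apply Real.exp_le_exp.2
    have h2 : x ^ 2 ≤ y ^ 2 := pow_le_pow_left₀ hx.1 hxy 2
    nlinarith
  have h2 := h1.sum_le_integral
  simp only [zero_add] at h2
  refine h2.trans ?_
  rw [← integral_gaussian_Ioi b, intervalIntegral.integral_of_le (Nat.cast_nonneg L)]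
  apply setIntegral_mono_set
  · exact (integrable_exp_neg_mul_sq hb).integrableOn
  · exact Filter.Eventually.of_forall fun x => (Real.exp_pos _).le
  · exact (Set.Ioc_subset_Ioi_self).eventuallyLE

theorem rr_diff_le {L : ℕ} (hL : 2 ≤ L) {t : ℝ} (ht : 0 < t) :
    rr L t 0 - rr L t L ≤ 1 / Real.sqrt t := by
  have hL0 : (0 : ℝ) < L := by
    have : 0 < L := by omega
    exact_mod_cast this
  obtain ⟨b, hb⟩ : ∃ b : ℝ, b = 4 * t / (L : ℝ) ^ 2 := ⟨_, rfl⟩
  have hb0 : 0 < b := by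
    rw [hb]
    positivity
  have hE : ∀ m : ℝ, 0 ≤ m → m ≤ L →
      Real.exp (-t * ek (Real.pi * m / L)) ≤ Real.exp (-b * m ^ 2) := by
    intro m h0 h1
    apply Real.exp_le_exp.2
    have h2 := mul_le_mul_of_nonneg_left (ek_ge hL h0 h1) ht.le
    have h3 : t * (4 * (m / L) ^ 2) = b * m ^ 2 := by
      rw [hb]
      ring
    linarith
  have hc : ∀ n : ℕ, 0 ≤ 1 - Real.cos (n * Real.pi) ∧ 1 - Real.cos (n * Real.pi) ≤ 2 := fun n =>
    ⟨by linarith [Real.cos_le_one (n * Real.pi)], by linarith [Real.neg_one_le_cos (n * Real.pi)]⟩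
  obtain ⟨S, hS⟩ : ∃ S : ℝ, S = ∑ i ∈ Finset.range L, Real.exp (-b * ((i + 1 : ℕ) : ℝ) ^ 2) :=
    ⟨_, rfl⟩
  have hSle := gauss_sum hb0 L
  rw [← hS] at hSle
  rw [rr_diff hL, two_mul L, Finset.sum_range_add]
  -- first half
  have h1 : ∑ n ∈ Finset.range L, Real.exp (-t * ek (Real.pi * n / L)) *
      (1 - Real.cos (n * Real.pi)) ≤ 2 * S := by
    have h2 : ∑ n ∈ Finset.range L, Real.exp (-t * ek (Real.pi * n / L)) *
        (1 - Real.cos (n * Real.pi)) ≤ ∑ n ∈ Finset.range (L + 1),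
          (if n = 0 then 0 else 2 * Real.exp (-b * (n : ℝ) ^ 2)) := by
      rw [Finset.sum_range_succ]
      have h3 : 0 ≤ (if L = 0 then 0 else 2 * Real.exp (-b * (L : ℝ) ^ 2)) := by
        split_ifs
        · exact le_rfl
        · positivity
      refine le_trans (Finset.sum_le_sum fun n hn => ?_) (le_add_of_nonneg_right h3)
      split_ifs with h4
      · subst h4
        rw [Nat.cast_zero, zero_mul, Real.cos_zero, sub_self, mul_zero]
      · have h5 : (n : ℝ) ≤ L := by exact_mod_cast (Finset.mem_range.1 hn).le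
        have h6 := hE n (Nat.cast_nonneg n) h5
        have h7 := hc n
        have h8 : 0 ≤ Real.exp (-t * ek (Real.pi * n / L)) := (Real.exp_pos _).le
        nlinarith
    refine h2.trans (le_of_eq ?_)
    rw [Finset.sum_range_succ', if_pos rfl, add_zero, hS, Finset.mul_sum]
    refine Finset.sum_congr rfl fun i _ => ?_
    rw [if_neg (Nat.succ_ne_zero i)]
  have h2 : ∑ n ∈ Finset.range L, Real.exp (-t * ek (Real.pi * ((L + n : ℕ) : ℝ) / L)) *
      (1 - Real.cos (((L + n : ℕ) : ℝ) * Real.pi)) ≤ 2 * S := by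
    rw [← Finset.sum_range_reflect, hS, Finset.mul_sum]
    refine Finset.sum_le_sum fun n hn => ?_
    have hn' := Finset.mem_range.1 hn
    have h3 : ((L + (L - 1 - n) : ℕ) : ℝ) = 2 * L - ((n + 1 : ℕ) : ℝ) := by
      have h4 : L + (L - 1 - n) + (n + 1) = 2 * L := by omega
      have h5 : ((L + (L - 1 - n) : ℕ) : ℝ) + ((n + 1 : ℕ) : ℝ) = 2 * L := by exact_mod_cast h4
      linarith
    have h4 : ek (Real.pi * ((L + (L - 1 - n) : ℕ) : ℝ) / L) =
        ek (Real.pi * ((n + 1 : ℕ) : ℝ) / L) := by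
      unfold ek
      have h5 : Real.pi * ((L + (L - 1 - n) : ℕ) : ℝ) / L =
          2 * Real.pi - Real.pi * ((n + 1 : ℕ) : ℝ) / L := by
        rw [h3]
        field_simp
      rw [h5, Real.cos_two_pi_sub]
    rw [h4]
    have h5 : ((n + 1 : ℕ) : ℝ) ≤ L := by exact_mod_cast hn'
    have h6 := hE ((n + 1 : ℕ) : ℝ) (Nat.cast_nonneg _) h5
    have h7 := hc (L + (L - 1 - n))
    have h8 : 0 ≤ Real.exp (-t * ek (Real.pi * ((n + 1 : ℕ) : ℝ) / L)) := (Real.exp_pos _).le
    have h9 : Real.exp (-t * ek (Real.pi * ((n + 1 : ℕ) : ℝ) / L)) *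
        (1 - Real.cos (((L + (L - 1 - n) : ℕ) : ℝ) * Real.pi)) ≤
        Real.exp (-t * ek (Real.pi * ((n + 1 : ℕ) : ℝ) / L)) * 2 :=
      mul_le_mul_of_nonneg_left h7.2 h8
    linarith
  have h3 : Real.sqrt (Real.pi / b) / 2 = Real.sqrt Real.pi * L / (4 * Real.sqrt t) := by
    have h4 : Real.pi / b = Real.pi * ((L : ℝ) ^ 2 / (4 * t)) := by
      rw [hb]
      field_simp
    rw [h4, Real.sqrt_mul Real.pi_pos.le, Real.sqrt_div (by positivity), Real.sqrt_sq hL0.le,
      Real.sqrt_mul (by norm_num)]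
    have h5 : Real.sqrt 4 = 2 := by
      rw [show (4 : ℝ) = 2 ^ 2 by norm_num, Real.sqrt_sq (by norm_num)]
    rw [h5]
    have h6 : Real.sqrt t ≠ 0 := (Real.sqrt_pos.2 ht).ne'
    field_simp
    ring
  rw [h3] at hSle
  have hsp : Real.sqrt Real.pi ≤ 2 := by
    rw [Real.sqrt_le_left (by norm_num)]
    linarith [Real.pi_le_four]
  have hst : 0 < Real.sqrt t := Real.sqrt_pos.2 ht
  have h4 : (1 / (2 * (L : ℝ))) * (4 * S) ≤ 1 / Real.sqrt t := by
    have h5 : (1 / (2 * (L : ℝ))) * (4 * S) ≤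
        (1 / (2 * (L : ℝ))) * (4 * (Real.sqrt Real.pi * L / (4 * Real.sqrt t))) :=
      mul_le_mul_of_nonneg_left (by linarith) (by positivity)
    have h6 : (1 / (2 * (L : ℝ))) * (4 * (Real.sqrt Real.pi * L / (4 * Real.sqrt t))) =
        Real.sqrt Real.pi / 2 * (1 / Real.sqrt t) := by
      field_simp
    have h7 : Real.sqrt Real.pi / 2 * (1 / Real.sqrt t) ≤ 1 * (1 / Real.sqrt t) :=
      mul_le_mul_of_nonneg_right (by linarith) (by positivity)
    linarith
  refine le_trans ?_ h4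
  apply mul_le_mul_of_nonneg_left _ (by positivity)
  linarith

theorem rr_diff_le_two {L : ℕ} (hL : 2 ≤ L) {t : ℝ} (ht : 0 ≤ t) :
    rr L t 0 - rr L t L ≤ 2 := by
  have hL0 : (0 : ℝ) < L := by
    have : 0 < L := by omega
    exact_mod_cast this
  rw [rr_diff hL]
  have h1 : ∑ n ∈ Finset.range (2 * L), Real.exp (-t * ek (Real.pi * n / L)) *
      (1 - Real.cos (n * Real.pi)) ≤ ∑ n ∈ Finset.range (2 * L), (2 : ℝ) := by
    refine Finset.sum_le_sum fun n _ => ?_
    have h2 : Real.exp (-t * ek (Real.pi * n / L)) ≤ 1 := by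
      apply Real.exp_le_one_iff.2
      have h3 : 0 ≤ ek (Real.pi * n / L) := by
        unfold ek
        linarith [Real.cos_le_one (Real.pi * n / L)]
      nlinarith
    have h3 : 0 ≤ Real.exp (-t * ek (Real.pi * n / L)) := (Real.exp_pos _).le
    have h4 : 0 ≤ 1 - Real.cos (n * Real.pi) := by linarith [Real.cos_le_one (n * Real.pi)]
    have h5 : 1 - Real.cos (n * Real.pi) ≤ 2 := by linarith [Real.neg_one_le_cos (n * Real.pi)]
    nlinarith
  rw [Finset.sum_const, Finset.card_range, nsmul_eq_mul] at h1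
  calc (1 / (2 * (L : ℝ))) * ∑ n ∈ Finset.range (2 * L), Real.exp (-t * ek (Real.pi * n / L)) *
      (1 - Real.cos (n * Real.pi)) ≤ (1 / (2 * (L : ℝ))) * (((2 * L : ℕ) : ℝ) * 2) :=
        mul_le_mul_of_nonneg_left h1 (by positivity)
    _ = 2 := by
        push_cast
        field_simp

theorem sum_Ico_symm (F : ℤ → ℝ) (n : ℕ) :
    ∑ z ∈ Finset.Ico (-(n : ℤ)) n, F z = ∑ k ∈ Finset.range n, (F k + F (-((k : ℤ) + 1))) := by
  induction n with
  | zero => simp
  | succ n ih =>
    have h1 : Finset.Ico (-((n + 1 : ℕ) : ℤ)) ((n + 1 : ℕ) : ℤ) =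
        insert (-((n : ℤ) + 1)) (insert (n : ℤ) (Finset.Ico (-(n : ℤ)) n)) := by
      ext z
      simp only [Finset.mem_Ico, Finset.mem_insert]
      push_cast
      omega
    rw [h1, Finset.sum_insert, Finset.sum_insert, ih, Finset.sum_range_succ]
    · ring
    · simp
    · simp only [Finset.mem_insert, Finset.mem_Ico, not_or]
      constructor
      · omega
      · omega

/-- telescoping -/
theorem sum_le {L : ℕ} (hL : 2 ≤ L) {t : ℝ} (ht : 0 ≤ t) :
    ∑ z ∈ Finset.Ico (-(L : ℤ)) L, |rr L t (z + 1) - rr L t (z - 1)| ≤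
      4 * (rr L t 0 - rr L t L) := by
  rw [sum_Ico_symm]
  have h1 : ∀ k ∈ Finset.range L,
      |rr L t ((k : ℤ) + 1) - rr L t ((k : ℤ) - 1)| +
        |rr L t (-((k : ℤ) + 1) + 1) - rr L t (-((k : ℤ) + 1) - 1)| =
      (rr L t ((k : ℤ) - 1) - rr L t ((k : ℤ) + 1)) +
        (rr L t (k : ℤ) - rr L t ((k : ℤ) + 2)) := by
    intro k hk
    have hk' := Finset.mem_range.1 hk
    have h2 : rr L t ((k : ℤ) + 1) ≤ rr L t ((k : ℤ) - 1) := by
      rcases Nat.eq_zero_or_pos k with h3 | h3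
      · subst h3
        have h4 : rr L t (((0 : ℕ) : ℤ) - 1) = rr L t (((0 : ℕ) : ℤ) + 1) := by
          rw [← rr_neg]
          exact congrArg (rr L t) (by norm_num)
        rw [h4]
      · have h4 := rr_mono hL ht (k : ℤ) (by omega) (by omega)
        have h5 := rr_mono hL ht ((k : ℤ) - 1) (by omega) (by omega)
        rw [sub_add_cancel] at h5
        linarith
    have h3 : rr L t ((k : ℤ) + 2) ≤ rr L t (k : ℤ) := by
      rcases Nat.lt_or_ge (k + 1) L with h4 | h4
      · have h5 := rr_mono hL ht (k : ℤ) (by omega) (by omega)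
        have h6 := rr_mono hL ht ((k : ℤ) + 1) (by omega) (by omega)
        have h7 : (k : ℤ) + 1 + 1 = k + 2 := by ring
        rw [h7] at h6
        linarith
      · have h5 : (k : ℤ) + 2 = (L : ℤ) + 1 := by omega
        have h6 : (k : ℤ) = (L : ℤ) - 1 := by omega
        rw [h5, rr_refl (by omega), h6]
    have h4 : rr L t (-((k : ℤ) + 1) + 1) = rr L t (k : ℤ) := by
      rw [← rr_neg]
      exact congrArg (rr L t) (by ring)
    have h5 : rr L t (-((k : ℤ) + 1) - 1) = rr L t ((k : ℤ) + 2) := by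
      rw [← rr_neg]
      exact congrArg (rr L t) (by ring)
    rw [h4, h5, abs_sub_comm, abs_of_nonneg (by linarith), abs_of_nonneg (by linarith)]
  rw [Finset.sum_congr rfl h1]
  have h2 : ∀ n : ℕ, ∑ k ∈ Finset.range n, ((rr L t ((k : ℤ) - 1) - rr L t ((k : ℤ) + 1)) +
      (rr L t (k : ℤ) - rr L t ((k : ℤ) + 2))) =
      (rr L t (-1) + 2 * rr L t 0 + rr L t 1) -
        (rr L t ((n : ℤ) - 1) + 2 * rr L t (n : ℤ) + rr L t ((n : ℤ) + 1)) := by
    intro n
    induction n with
    | zero =>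
      rw [Finset.sum_range_zero, Nat.cast_zero, zero_sub, zero_add]
      ring
    | succ n ih =>
      rw [Finset.sum_range_succ, ih]
      have e1 : ((n + 1 : ℕ) : ℤ) - 1 = n := by push_cast; ring
      have e2 : ((n + 1 : ℕ) : ℤ) = (n : ℤ) + 1 := by push_cast; ring
      have e3 : (n : ℤ) + 1 + 1 = n + 2 := by ring
      rw [e1, e2, e3]
      ring
  rw [h2 L]
  have h3 : rr L t (-1) = rr L t 1 := rr_neg L t 1
  have h4 : rr L t ((L : ℤ) + 1) = rr L t ((L : ℤ) - 1) := rr_refl (by omega) t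
  have h5 : rr L t 1 ≤ rr L t 0 := by
    have := rr_mono hL ht 0 le_rfl (by omega)
    rwa [zero_add] at this
  have h6 : rr L t (L : ℤ) ≤ rr L t ((L : ℤ) - 1) := by
    have := rr_mono hL ht ((L : ℤ) - 1) (by omega) (by omega)
    rwa [sub_add_cancel] at this
  rw [h3, h4]
  linarith

theorem td : S_D := by
  refine ⟨12, ?_⟩
  intro L hL t ht
  refine (sum_le hL ht).trans ?_
  have h1 : 0 < Real.sqrt (1 + t) := Real.sqrt_pos.2 (by linarith)
  rw [le_div_iff₀ h1]
  rcases le_total t 1 with h2 | h2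
  · have h3 := rr_diff_le_two hL ht
    have h4 : Real.sqrt (1 + t) ≤ 3 / 2 := by
      rw [Real.sqrt_le_left (by norm_num)]
      linarith
    nlinarith
  · have h3 := rr_diff_le hL (by linarith : 0 < t)
    have h4 : 0 < Real.sqrt t := Real.sqrt_pos.2 (by linarith)
    have h5 : Real.sqrt (1 + t) ≤ 2 * Real.sqrt t := by
      rw [Real.sqrt_le_left (by positivity), mul_pow, Real.sq_sqrt (by linarith)]
      linarith
    have h6 : 4 * (rr L t 0 - rr L t L) * Real.sqrt (1 + t) ≤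
        4 * (1 / Real.sqrt t) * (2 * Real.sqrt t) := by
      apply mul_le_mul _ h5 h1.le (by positivity)
      linarith
    have h7 : 4 * (1 / Real.sqrt t) * (2 * Real.sqrt t) = 8 := by
      field_simp
      norm_num
    linarith

end Pool.Agent.H663.AF
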